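import Mathlib

set_option autoImplicit false

open Classical Matrix SimpleGraph

namespace Pool.Agent.Results.MP_c65526_co.Ratio

section
variable {V : Type} [Fintype V] (H : SimpleGraph V) (q : V → ℝ) (lam : ℝ)

/-- Flow identity through the level set below `t`. -/
lemma flow (hq : H.adjMatrix ℝ *ᵥ q = lam • q) (S : Finset V) :
    ∑ w ∈ S, (lam - H.degree w) * q w =
      ∑ w ∈ S, ∑ z ∈ Sᶜ, if H.Adj w z then q z - q w else 0 := by
  have h1 : ∀ w, (lam - H.degree w) * q w = ∑ z, if H.Adj w z then q z - q w else 0 := by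
    intro w
    have := congrFun hq w
    rw [adjMatrix_mulVec_apply] at this
    rw [← Finset.sum_filter, ← neighborFinset_eq_filter, Finset.sum_sub_distrib, this]
    simp
    ring
  have h2 : ∑ w ∈ S, ∑ z ∈ S, (if H.Adj w z then q z - q w else 0) = 0 := by
    have : ∑ w ∈ S, ∑ z ∈ S, (if H.Adj w z then q z - q w else 0) =
        -∑ w ∈ S, ∑ z ∈ S, (if H.Adj w z then q z - q w else 0) := by
      conv_lhs => rw [Finset.sum_comm]
      rw [← Finset.sum_neg_distrib]
      refine Finset.sum_congr rfl fun a _ => ?_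
      rw [← Finset.sum_neg_distrib]
      refine Finset.sum_congr rfl fun b _ => ?_
      by_cases h : H.Adj a b
      · simp [h, h.symm]
      · have : ¬ H.Adj b a := fun h' => h h'.symm
        simp [h, this]
    linarith
  simp only [h1]
  rw [← Finset.sum_congr rfl fun w _ => Finset.sum_add_sum_compl S _, Finset.sum_add_distrib, h2,
    zero_add]

lemma step (hq : H.adjMatrix ℝ *ᵥ q = lam • q) (hpos : ∀ i, 0 < q i) (u v : V)
    (hd : ∀ w, lam - H.degree w ≤ if w = u ∨ w = v then 1 else 0) {a b : V} (hab : H.Adj a b) :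
    q b ≤ q a + ((if q u ≤ q a then q u else 0) + (if q v ≤ q a then q v else 0)) := by
  have e1 : 0 ≤ (if q u ≤ q a then q u else 0) := by split_ifs <;> [exact (hpos u).le; rfl]
  have e2 : 0 ≤ (if q v ≤ q a then q v else 0) := by split_ifs <;> [exact (hpos v).le; rfl]
  by_cases hlt : q b ≤ q a
  · linarith
  set S := Finset.univ.filter (fun w => q w ≤ q a) with hS
  have ha : a ∈ S := by simp [hS]
  have hb : b ∈ Sᶜ := by simpa [hS] using hlt
  have nn : ∀ w ∈ S, ∀ z ∈ Sᶜ, 0 ≤ (if H.Adj w z then q z - q w else 0) := by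
    intro w hw z hz
    simp only [hS, Finset.mem_compl, Finset.mem_filter, Finset.mem_univ, true_and, not_le] at hw hz
    split_ifs <;> linarith
  have l1 : q b - q a ≤ ∑ w ∈ S, ∑ z ∈ Sᶜ, if H.Adj w z then q z - q w else 0 := by
    have := Finset.single_le_sum (f := fun z => if H.Adj a z then q z - q a else 0) (nn a ha) hb
    simp only [hab, if_true] at this
    exact this.trans (Finset.single_le_sum
      (f := fun w => ∑ z ∈ Sᶜ, if H.Adj w z then q z - q w else 0)
      (fun w hw => Finset.sum_nonneg (nn w hw)) ha)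
  have l2 : ∑ w ∈ S, (lam - H.degree w) * q w ≤
      ∑ w ∈ S, ((if w = u then q w else 0) + (if w = v then q w else 0)) := by
    refine Finset.sum_le_sum fun w _ => ?_
    have h1 := hd w
    have h2 := hpos w
    by_cases hu : w = u <;> by_cases hv : w = v
    · rw [if_pos (Or.inl hu)] at h1; rw [if_pos hu, if_pos hv]; nlinarith
    · rw [if_pos (Or.inl hu)] at h1; rw [if_pos hu, if_neg hv]; nlinarith
    · rw [if_pos (Or.inr hv)] at h1; rw [if_neg hu, if_pos hv]; nlinarith
    · rw [if_neg (by tauto)] at h1; rw [if_neg hu, if_neg hv]; nlinarith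
  rw [Finset.sum_add_distrib, Finset.sum_ite_eq', Finset.sum_ite_eq'] at l2
  simp only [hS, Finset.mem_filter, Finset.mem_univ, true_and] at l2
  rw [flow H q lam hq] at l2
  linarith

lemma walk_le (φ : V → ℝ) (c : ℝ) (h : ∀ a b, H.Adj a b → φ b ≤ φ a + c) {a b : V}
    (p : H.Walk a b) : φ b ≤ φ a + p.length * c := by
  induction p with
  | nil => simp
  | cons hadj p ih =>
    have := h _ _ hadj
    simp only [Walk.length_cons, Nat.cast_add, Nat.cast_one]
    linarith

lemma conn_le (hc : H.Connected) (φ : V → ℝ) (c : ℝ) (hc0 : 0 ≤ c)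
    (h : ∀ a b, H.Adj a b → φ b ≤ φ a + c) (a b : V) :
    φ b ≤ φ a + (Fintype.card V - 1 : ℝ) * c := by
  obtain ⟨p, hp⟩ := (hc a b).exists_isPath
  have h1 := walk_le H φ c h p
  have h2 : (p.length : ℝ) + 1 ≤ Fintype.card V := by exact_mod_cast hp.length_lt
  nlinarith

lemma main (hc : H.Connected) (hq : H.adjMatrix ℝ *ᵥ q = lam • q) (hpos : ∀ i, 0 < q i) (u v : V)
    (hd : ∀ w, lam - H.degree w ≤ if w = u ∨ w = v then 1 else 0) (huv : q u ≤ q v) (a b : V) :
    q a ≤ (Fintype.card V : ℝ) ^ 2 * q b := by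
  have pu := hpos u
  have pv := hpos v
  have st := fun {a b : V} (hab : H.Adj a b) => step H q lam hq hpos u v hd hab
  have h1 : q u ≤ q b := by
    have := conn_le H hc (fun w => min (q w) (q u)) 0 le_rfl (fun a b hab => by
      by_cases h : q u ≤ q a
      · simp [h]
      · have := st hab
        rw [if_neg h, if_neg (by linarith)] at this
        rw [min_eq_left (not_le.1 h).le]
        exact (min_le_left _ _).trans (by linarith)) b u
    simpa using this
  have h2 : q v ≤ q u + (Fintype.card V - 1 : ℝ) * q u := by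
    have := conn_le H hc (fun w => min (q w) (q v)) (q u) pu.le (fun a b hab => by
      by_cases h : q v ≤ q a
      · rw [min_eq_right h]
        exact (min_le_right _ _).trans (by linarith)
      · have := st hab
        rw [if_neg h] at this
        rw [min_eq_left (not_le.1 h).le]
        refine (min_le_left _ _).trans (this.trans ?_)
        split_ifs <;> linarith) u v
    simpa [huv] using this
  have h3 : q a ≤ q u + (Fintype.card V - 1 : ℝ) * (q u + q v) :=
    conn_le H hc q (q u + q v) (by linarith) (fun a b hab => by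
      refine (st hab).trans ?_
      split_ifs <;> linarith) u a
  have hn : (1 : ℝ) ≤ Fintype.card V := by
    exact_mod_cast Fintype.card_pos_iff.2 ⟨a⟩
  have h4 : (Fintype.card V - 1 : ℝ) * q v ≤
      (Fintype.card V - 1 : ℝ) * (q u + (Fintype.card V - 1 : ℝ) * q u) :=
    mul_le_mul_of_nonneg_left h2 (by linarith)
  have h5 : (Fintype.card V : ℝ) ^ 2 * q u ≤ (Fintype.card V : ℝ) ^ 2 * q b :=
    mul_le_mul_of_nonneg_left h1 (by positivity)
  nlinarith

lemma lam_le (hq : H.adjMatrix ℝ *ᵥ q = lam • q) (hpos : ∀ i, 0 < q i) (d : ℕ)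
    (hd : ∀ w, H.degree w ≤ d) (a : V) : lam ≤ d := by
  obtain ⟨m, -, hm⟩ := Finset.exists_max_image Finset.univ q ⟨a, Finset.mem_univ a⟩
  have := congrFun hq m
  rw [adjMatrix_mulVec_apply] at this
  have h1 := Finset.sum_le_card_nsmul (H.neighborFinset m) q (q m) (fun w _ => hm w (Finset.mem_univ w))
  rw [this, card_neighborFinset_eq_degree] at h1
  have h2 : (H.degree m : ℝ) ≤ d := by exact_mod_cast hd m
  have := hpos m
  simp only [Pi.smul_apply, smul_eq_mul, nsmul_eq_mul] at h1
  nlinarith

end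

lemma deg_del {V : Type} [Fintype V] (G H : SimpleGraph V) (u v : V) (huv : G.Adj u v)
    (hH : H = G.deleteEdges {s(u, v)}) (w : V) :
    G.degree w ≤ H.degree w + if w = u ∨ w = v then 1 else 0 := by
  have hA : ∀ z, H.Adj w z ↔ G.Adj w z ∧ ¬ ((w = u ∧ z = v) ∨ (w = v ∧ z = u)) := by
    intro z; rw [hH, deleteEdges_adj, Set.mem_singleton_iff, Sym2.eq_iff]
  rw [← card_neighborFinset_eq_degree, ← card_neighborFinset_eq_degree]
  split_ifs with h
  · refine le_trans (Finset.card_le_card ?_)
      (Finset.card_insert_le (if w = u then v else u) (H.neighborFinset w))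
    intro z hz
    simp only [mem_neighborFinset, Finset.mem_insert, hA] at hz ⊢
    have := huv.ne
    by_cases e : (w = u ∧ z = v) ∨ (w = v ∧ z = u)
    · left
      rcases e with ⟨rfl, rfl⟩ | ⟨rfl, rfl⟩
      · simp
      · simp [this.symm]
    · exact Or.inr ⟨hz, e⟩
  · rw [add_zero]
    refine Finset.card_le_card fun z hz => ?_
    simp only [mem_neighborFinset, hA] at hz ⊢
    tauto

/-- `q` is a principal eigenvector of `H`: positive, for the largest adjacency eigenvalue. -/
def Principal {n : ℕ} (H : SimpleGraph (Fin n)) (q : Fin n → ℝ) : Prop :=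
  (∀ i, 0 < q i) ∧ H.adjMatrix ℝ *ᵥ q = sSup (spectrum ℝ (H.adjMatrix ℝ)) • q

theorem result : ∀ (n d : ℕ) (G : SimpleGraph (Fin n)) (u v : Fin n), G.Connected →
    (∀ w, (G.neighborSet w).ncard = d) → G.Adj u v → ¬ G.IsBridge s(u, v) →
    ∀ q : Fin n → ℝ, Principal (G.deleteEdges {s(u, v)}) q →
      (⨆ a, q a) / (⨅ a, q a) ≤ (n : ℝ) ^ 2 := by
  intro n d G u v hc hreg huv hbr q hq
  have hHc : (G.deleteEdges {s(u, v)}).Connected := hc.connected_delete_edge_of_not_isBridge hbr
  generalize hH : G.deleteEdges {s(u, v)} = H at hq hHc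
  obtain ⟨hpos, hq⟩ := hq
  generalize sSup (spectrum ℝ (H.adjMatrix ℝ)) = lam at hq
  have : Nonempty (Fin n) := ⟨u⟩
  obtain ⟨a, ha⟩ := exists_eq_ciSup_of_finite (f := q)
  obtain ⟨b, hb⟩ := exists_eq_ciInf_of_finite (f := q)
  rw [← ha, ← hb]
  have dG : ∀ w, G.degree w = d := fun w => by
    rw [← hreg w, ← card_neighborFinset_eq_degree, ← Set.ncard_coe_finset]; simp
  have hle : ∀ w, H.degree w ≤ d := fun w => dG w ▸ degree_le_of_le (hH ▸ deleteEdges_le _)
  have hl := lam_le H q lam hq hpos d hle a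
  have hd : ∀ w, lam - H.degree w ≤ if w = u ∨ w = v then 1 else 0 := by
    intro w
    have key := deg_del G H u v huv hH.symm w
    rw [dG] at key
    split_ifs at key ⊢
    · have : (d : ℝ) ≤ H.degree w + 1 := by exact_mod_cast key
      linarith
    · have : (d : ℝ) ≤ H.degree w := by exact_mod_cast key
      linarith
  rw [div_le_iff₀ (hpos b)]
  rcases le_total (q u) (q v) with h | h
  · have := main H q lam hHc hq hpos u v (fun w => by convert hd w) h a b
    rwa [Fintype.card_fin] at this
  · have := main H q lam hHc hq hpos v u (fun w => by convert hd w using 2; exact or_comm) h a b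
    rwa [Fintype.card_fin] at this

end Pool.Agent.Results.MP_c65526_co.Ratio
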